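import Mathlib
import Pool.Agent.V1181.Lap

/-!
# Conformal metrics on the plane with curvature greater than one and arbitrarily large finite area

The function `u (x, y) = - log (cosh x) - e * y ^ 2` is a strict supersolution of the Liouville
equation on the plane, and the area of the corresponding metric is a constant times `e ^ (-1/2)`.
-/

set_option autoImplicit false

namespace Pool.Agent.Results.MP_3ddb5a_an.UnboundedArea

open Real Set Filter MeasureTheory Topology InnerProductSpace Laplacian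

/-- The conformal factor. -/
noncomputable def U (e : ℝ) (x : EuclideanSpace ℝ (Fin 2)) : ℝ :=
  - log (cosh (x 0)) - e * (x 1) ^ 2

theorem contDiff_U (e : ℝ) : ContDiff ℝ (⊤ : ℕ∞) (U e) := by
  unfold U
  have h0 : ContDiff ℝ (⊤ : ℕ∞) (fun x : EuclideanSpace ℝ (Fin 2) => x 0) := by fun_prop
  have h1 : ContDiff ℝ (⊤ : ℕ∞) (fun x : EuclideanSpace ℝ (Fin 2) => x 1) := by fun_prop
  have hc : ContDiff ℝ (⊤ : ℕ∞) (fun x : EuclideanSpace ℝ (Fin 2) => cosh (x 0)) :=
    Real.contDiff_cosh.comp h0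
  refine ((hc.log ?_).neg).sub (contDiff_const.mul (h1.pow 2))
  intro x
  exact (Real.cosh_pos _).ne'

theorem lap_U (e : ℝ) (x : EuclideanSpace ℝ (Fin 2)) :
    Δ (U e) x = - 1 / cosh (x 0) ^ 2 - 2 * e := by
  rw [Pool.Agent.V1181.lap_plane (by exact_mod_cast (contDiff_infty.1 (contDiff_U e) 2).contDiffAt)
    ![fun y => - (sinh (y 0) / cosh (y 0)), fun y => - (e * (2 * y 1))]
    ![- 1 / cosh (x 0) ^ 2, - (e * 2)]]
  · simp
    ring
  · intro i
    refine Filter.Eventually.of_forall fun y => ?_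
    fin_cases i
    · have h0 : HasDerivAt (fun t : ℝ => y 0 + t) 1 0 := by
        simpa using (hasDerivAt_id (0 : ℝ)).const_add (y 0)
      have h1 : HasDerivAt (fun t : ℝ => cosh (y 0 + t)) (sinh (y 0 + 0) * 1) 0 :=
        HasDerivAt.comp (h₂ := cosh) (0 : ℝ) (by simpa using Real.hasDerivAt_cosh (y 0 + 0)) h0
      have h2 := (h1.log (Real.cosh_pos _).ne').neg.sub_const (e * (y 1) ^ 2)
      simp only [add_zero, mul_one] at h2
      refine (h2.congr_deriv ?_).congr_of_eventuallyEq (Filter.Eventually.of_forall fun t => ?_)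
      · simp
      · simp [U]
    · have h0 : HasDerivAt (fun t : ℝ => y 1 + t) 1 0 := by
        simpa using (hasDerivAt_id (0 : ℝ)).const_add (y 1)
      have h1 := ((h0.pow 2).const_mul e).const_sub (- log (cosh (y 0)))
      refine (h1.congr_deriv ?_).congr_of_eventuallyEq (Filter.Eventually.of_forall fun t => ?_)
      · simp
      · simp [U]
  · intro i
    fin_cases i
    · have h0 : HasDerivAt (fun t : ℝ => x 0 + t) 1 0 := by
        simpa using (hasDerivAt_id (0 : ℝ)).const_add (x 0)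
      have h1 : HasDerivAt (fun t : ℝ => cosh (x 0 + t)) (sinh (x 0 + 0) * 1) 0 :=
        HasDerivAt.comp (h₂ := cosh) (0 : ℝ) (by simpa using Real.hasDerivAt_cosh (x 0 + 0)) h0
      have h2 : HasDerivAt (fun t : ℝ => sinh (x 0 + t)) (cosh (x 0 + 0) * 1) 0 :=
        HasDerivAt.comp (h₂ := sinh) (0 : ℝ) (by simpa using Real.hasDerivAt_sinh (x 0 + 0)) h0
      have h3 := (h2.div h1 (Real.cosh_pos _).ne').neg
      refine (h3.congr_deriv ?_).congr_of_eventuallyEq (Filter.Eventually.of_forall fun t => ?_)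
      · simp only [add_zero, mul_one]
        have h4 := Real.cosh_sq (x 0)
        have h5 : cosh (x 0) ≠ 0 := (Real.cosh_pos _).ne'
        simp
        field_simp
        nlinarith
      · simp
    · have h0 : HasDerivAt (fun t : ℝ => x 1 + t) 1 0 := by
        simpa using (hasDerivAt_id (0 : ℝ)).const_add (x 1)
      have h1 := ((h0.const_mul 2).const_mul e).neg
      refine (h1.congr_deriv ?_).congr_of_eventuallyEq (Filter.Eventually.of_forall fun t => ?_)
      · simp
      · simp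

theorem exp_U (e : ℝ) (x : EuclideanSpace ℝ (Fin 2)) :
    exp (2 * U e x) = (cosh (x 0) ^ 2)⁻¹ * exp (-(2 * e) * (x 1) ^ 2) := by
  unfold U
  have h : 2 * (- log (cosh (x 0)) - e * (x 1) ^ 2)
      = - (2 * log (cosh (x 0))) + -(2 * e) * (x 1) ^ 2 := by ring
  rw [h, exp_add, exp_neg]
  congr 2
  rw [two_mul, exp_add, exp_log (Real.cosh_pos _)]
  ring

theorem sech_sq_integrable : Integrable (fun t : ℝ => (cosh t ^ 2)⁻¹) := by
  refine Integrable.mono' integrable_inv_one_add_sq ?_ (Filter.Eventually.of_forall fun t => ?_)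
  · refine Continuous.aestronglyMeasurable ?_
    refine Continuous.inv₀ (by fun_prop) ?_
    intro t
    exact (pow_pos (Real.cosh_pos t) 2).ne'
  · have h1 : 0 < cosh t ^ 2 := pow_pos (Real.cosh_pos t) 2
    rw [Real.norm_of_nonneg (inv_nonneg.2 h1.le)]
    refine inv_anti₀ (by positivity) ?_
    rw [Real.cosh_sq]
    have h2 : t ^ 2 ≤ sinh t ^ 2 := by
      rw [sq_le_sq]
      rcases le_total 0 t with h | h
      · rw [abs_of_nonneg h, abs_of_nonneg (Real.sinh_nonneg_iff.2 h)]
        exact Real.self_le_sinh_iff.2 h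
      · rw [abs_of_nonpos h, abs_of_nonpos (Real.sinh_nonpos_iff.2 h)]
        have := Real.sinh_le_self_iff.2 h
        linarith
    linarith

theorem sech_sq_pos : 0 < ∫ t : ℝ, (cosh t ^ 2)⁻¹ := by
  rw [integral_pos_iff_support_of_nonneg]
  · have : Function.support (fun t : ℝ => (cosh t ^ 2)⁻¹) = univ := by
      ext t
      simp [(Real.cosh_pos t).ne']
    rw [this]
    simp
  · intro t
    have h1 : 0 < cosh t ^ 2 := pow_pos (Real.cosh_pos t) 2
    exact (inv_pos.2 h1).le
  · exact sech_sq_integrable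

/-- There are smooth `u` on the plane with `Δ u + exp (2 u) < 0` everywhere and with finite area
larger than any prescribed number. -/
theorem result : ∀ A : ℝ, ∃ u : EuclideanSpace ℝ (Fin 2) → ℝ, ContDiff ℝ (⊤ : ℕ∞) u ∧
    (∀ x, Δ u x + exp (2 * u x) < 0) ∧ Integrable (fun x => exp (2 * u x)) ∧
    A < ∫ x, exp (2 * u x) := by
  intro A
  set c := ∫ t : ℝ, (cosh t ^ 2)⁻¹ with hc
  have hcpos : 0 < c := sech_sq_pos
  obtain ⟨e, he, hA⟩ : ∃ e : ℝ, 0 < e ∧ A < c * √(π / (2 * e)) := by
    refine ⟨π * c ^ 2 / (2 * (|A| + 1) ^ 2), by positivity, ?_⟩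
    have h1 : π / (2 * (π * c ^ 2 / (2 * (|A| + 1) ^ 2))) = ((|A| + 1) / c) ^ 2 := by
      field_simp
    rw [h1, Real.sqrt_sq (by positivity)]
    have h2 : c * ((|A| + 1) / c) = |A| + 1 := by field_simp
    rw [h2]
    linarith [le_abs_self A]
  have hmp := PiLp.volume_preserving_ofLp (Fin 2)
  set F : Fin 2 → ℝ → ℝ := ![fun t => (cosh t ^ 2)⁻¹, fun t => exp (-(2 * e) * t ^ 2)] with hF
  have hfun : (fun x : EuclideanSpace ℝ (Fin 2) => exp (2 * U e x))
      = (fun y : Fin 2 → ℝ => ∏ i, F i (y i)) ∘ (WithLp.ofLp : EuclideanSpace ℝ (Fin 2) → _) := by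
    funext x
    simp [exp_U, hF, Fin.prod_univ_two]
  have hFint : ∀ i, Integrable (F i) := by
    intro i
    fin_cases i
    · exact sech_sq_integrable
    · exact integrable_exp_neg_mul_sq (by positivity)
  have hint : Integrable (fun y : Fin 2 → ℝ => ∏ i, F i (y i)) :=
    Integrable.fintype_prod hFint
  refine ⟨U e, contDiff_U e, ?_, ?_, ?_⟩
  · intro x
    rw [lap_U, exp_U]
    have h1 : 0 < cosh (x 0) ^ 2 := pow_pos (Real.cosh_pos _) 2
    have h2 : exp (-(2 * e) * (x 1) ^ 2) ≤ 1 := by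
      rw [Real.exp_le_one_iff]
      nlinarith [sq_nonneg (x 1)]
    have h3 : (cosh (x 0) ^ 2)⁻¹ * exp (-(2 * e) * (x 1) ^ 2) ≤ (cosh (x 0) ^ 2)⁻¹ * 1 :=
      mul_le_mul_of_nonneg_left h2 (inv_pos.2 h1).le
    have h4 : - 1 / cosh (x 0) ^ 2 = - (cosh (x 0) ^ 2)⁻¹ := by ring
    rw [h4]
    linarith
  · rw [hfun]
    exact hmp.integrable_comp_of_integrable hint
  · rw [hfun]
    have h1 : ∫ x, ((fun y : Fin 2 → ℝ => ∏ i, F i (y i)) ∘
        (WithLp.ofLp : EuclideanSpace ℝ (Fin 2) → _)) x = ∫ y : Fin 2 → ℝ, ∏ i, F i (y i) := by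
      have := hmp.integral_comp (MeasurableEquiv.toLp 2 (Fin 2 → ℝ)).symm.measurableEmbedding
        (fun y : Fin 2 → ℝ => ∏ i, F i (y i))
      simpa [Function.comp_def] using this
    rw [h1, integral_fintype_prod_volume_eq_prod, Fin.prod_univ_two]
    simp only [hF, Matrix.cons_val_zero, Matrix.cons_val_one]
    rw [integral_gaussian]
    exact hA

end Pool.Agent.Results.MP_3ddb5a_an.UnboundedArea
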